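import Pool.Agent.Q85.CL.Defs4
import Pool.Agent.Q85.CL.Blow
import Pool.Agent.TH305.AX.Touch
import Pool.Agent.TH305.AX.Sol
import Pool.Agent.W221.NS.Stm4

/-!
Project AXI (helper67): axisymmetric solutions near the axis. `V = Fin 3 → ℝ` with the maximum
norm; the axis is the third coordinate axis. All the statements (`Stm...`) are for viscosity one.

Notation: `sg x = x₀² + x₁²` is the square `ρ²` of the distance to the axis, `circ v = ρ v_θ`,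
`rad v = ρ v_ρ`, `UU v = v_ρ / ρ`, `WW v = v_θ / ρ`, `JJ v = ω_ρ / ρ`, `OO v = ω_θ / ρ` where
`ω = vort v`; these four functions are smooth also on the axis (they are defined by the weighted
averages `AA`).
-/

set_option autoImplicit false

open MeasureTheory Set Metric Filter Topology
open scoped ContDiff
open H459R3.NS Pool.Agent.W268.NS Pool.Agent.Q67.VD

namespace Pool.Agent.Q67.AXI

open Pool.Agent.Q85.CC Pool.Agent.Q85.CL Pool.Agent.TH305.AX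

/-! ### Definitions -/

/-- The function `f` is invariant under the rotations about the axis. -/
def AxF (f : V → ℝ) : Prop := ∀ (θ : ℝ) (x : V), f (rot θ x) = f x

/-- Weighted average over the segment between `x` and the axis. -/
noncomputable def AA (g : V → ℝ) (x : V) : ℝ := ∫ l in (0 : ℝ)..1, l * g ![l * x 0, l * x 1, x 2]

/-- `v_ρ / ρ`. -/
noncomputable def UU (v : V → V) : V → ℝ :=
  AA (fun y => pd 0 (fun z => v z 0) y + pd 1 (fun z => v z 1) y)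

/-- `v_θ / ρ`. -/
noncomputable def WW (v : V → V) : V → ℝ :=
  AA (fun y => pd 0 (fun z => v z 1) y - pd 1 (fun z => v z 0) y)

/-- `ω_ρ / ρ`. -/
noncomputable def JJ (v : V → V) : V → ℝ := UU (vort v)

/-- `ω_θ / ρ`. -/
noncomputable def OO (v : V → V) : V → ℝ := WW (vort v)

/-- `ρ v_ρ`. -/
def rad (v : V → V) (x : V) : ℝ := x 0 * v x 0 + x 1 * v x 1

/-- `ρ ∂_ρ f`. -/
noncomputable def RR (f : V → ℝ) (x : V) : ℝ := x 0 * pd 0 f x + x 1 * pd 1 f x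

/-- `Δ f + (2 / ρ) ∂_ρ f`. -/
noncomputable def LL (f : V → ℝ) (x : V) : ℝ := lap f x + 2 / sg x * RR f x

/-- `|∇ f|²`. -/
noncomputable def gr2 (f : V → ℝ) (x : V) : ℝ := ∑ i, pd i f x ^ 2

/-- `|∇² f|²`. -/
noncomputable def hs2 (f : V → ℝ) (x : V) : ℝ := ∑ i, ∑ j, pd i (pd j f) x ^ 2

/-- `∫ |∇ f|²`. -/
noncomputable def GD (f : V → ℝ) : ℝ := ∫ x, gr2 f x

/-- `∫ |∇² f|²`. -/
noncomputable def HD (f : V → ℝ) : ℝ := ∫ x, hs2 f x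

/-- The closed cylinder with radius `r` and half height `h`, centred at the point `(0, 0, c)` of
the axis. -/
def Cy (c r h : ℝ) : Set V := {x | sg x ≤ r ^ 2 ∧ |x 2 - c| ≤ h}

/-- The open cylinder. -/
def Co (c r h : ℝ) : Set V := {x | sg x < r ^ 2 ∧ |x 2 - c| < h}

/-- The outer part of the cylinder. -/
def Out (c r h r1 h1 : ℝ) : Set V := {x | x ∈ Cy c r h ∧ (r1 ^ 2 ≤ sg x ∨ h1 ≤ |x 2 - c|)}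

/-- The stretching term in the equation of `JJ`. -/
noncomputable def SS (v : V → V) (x : V) : ℝ :=
  -(RR (UU v) x * pd 2 (WW v) x) + RR (WW v) x * pd 2 (UU v) x + 2 * WW v x * pd 2 (UU v) x

/-- The velocity and the four functions with their first derivatives are bounded by `K` at `x`. -/
def BdA (K : ℝ) (v : V → V) (x : V) : Prop :=
  (∀ i, |v x i| ≤ K) ∧ |UU v x| ≤ K ∧ |WW v x| ≤ K ∧ |JJ v x| ≤ K ∧ |OO v x| ≤ K ∧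
    ∀ i, |pd i (UU v) x| ≤ K ∧ |pd i (WW v) x| ≤ K ∧ |pd i (JJ v) x| ≤ K ∧ |pd i (OO v) x| ≤ K

/-- Cut-off functions: `1` on `Cy c r1 h1`, support in `Co c r h`. -/
structure Cut (c r h r1 h1 K : ℝ) (φ : V → ℝ) : Prop where
  sm : ContDiff ℝ ∞ φ
  cs : HasCompactSupport φ
  nn : ∀ x, 0 ≤ φ x
  le : ∀ x, φ x ≤ 1
  ax : AxF φ
  one : ∀ x ∈ Cy c r1 h1, φ x = 1
  supp : tsupport φ ⊆ Co c r h
  bd : ∀ x, (∀ i, |pd i φ x| ≤ K) ∧ |lap φ x| ≤ K ∧ |RR φ x| ≤ K * sg x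

/-- Smooth solutions in an open cylinder with finite energy and dissipation and integrable
pressure; the velocity is a smooth axisymmetric field on the whole space. -/
structure AxL (T E c R H : ℝ) (u : ℝ → V → V) (p : ℝ → V → ℝ) : Prop
    extends LSl T E (Co c R H) u p where
  axi : ∀ t ∈ Ioo 0 T, Axi (u t)

/-- The scaled dissipation is small near the point `(T, y)`. -/
def Qt (ε T : ℝ) (u : ℝ → V → V) (y : V) : Prop := ∃ T₁ r₁ ρ : ℝ, 0 ≤ T₁ ∧ T₁ < T ∧ 0 < r₁ ∧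
  0 < ρ ∧ ∀ t ∈ Ioo T₁ T, ∀ x ∈ closedBall y ρ, ∀ r ∈ Ioc 0 r₁,
    ∫ τ in Ioo (t - r ^ 2) t, W221.NS.B2 x r (u τ) ≤ ε * r

/-- The velocity mollified at the scale `r` is at most `K / r` near the point `(T, y)`. -/
def Mo (K T : ℝ) (u : ℝ → V → V) (y : V) : Prop := ∃ T₁ r₁ ρ : ℝ, 0 ≤ T₁ ∧ T₁ < T ∧ 0 < r₁ ∧
  0 < ρ ∧ ∀ t ∈ Ioo T₁ T, ∀ x ∈ closedBall y ρ, ∀ r ∈ Ioc 0 r₁, ‖W221.NS.mol r u t x‖ ≤ K / r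

/-- The velocity is bounded near the point `(T, y)`. -/
def Rg (T : ℝ) (u : ℝ → V → V) (y : V) : Prop := ∃ B δ : ℝ, 0 < δ ∧
  ∀ t ∈ Ioo (T - δ) T, 0 < t → ∀ x : V, ‖x - y‖ ≤ δ → ‖u t x‖ ≤ B

/-! ### Fixed time -/

/-- AXI-AAS. The averages of smooth functions are smooth, also with a parameter. -/
def StmAAs : Prop :=
  (∀ g : V → ℝ, ContDiff ℝ ∞ g → ContDiff ℝ ∞ (AA g)) ∧
  (∀ (a b : ℝ) (g : ℝ → V → ℝ), ContDiffOn ℝ ∞ (fun z : ℝ × V => g z.1 z.2) (Ioo a b ×ˢ univ) →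
    ContDiffOn ℝ ∞ (fun z : ℝ × V => AA (g z.1) z.2) (Ioo a b ×ˢ univ)) ∧
  (∀ g : V → ℝ, ContDiff ℝ ∞ g → pd 2 (AA g) = AA (pd 2 g)) ∧
  (∀ g : V → ℝ, ContDiff ℝ ∞ g → ∀ x, 2 * AA g x + RR (AA g) x = g x) ∧
  ∀ g : V → ℝ, ContDiff ℝ ∞ g → AxF g → AxF (AA g)

/-- AXI-ALG. The four functions of a smooth axisymmetric field. -/
def StmAlg : Prop := ∀ v : V → V, ContDiff ℝ ∞ v → Axi v →
  (ContDiff ℝ ∞ (UU v) ∧ ContDiff ℝ ∞ (WW v) ∧ ContDiff ℝ ∞ (JJ v) ∧ ContDiff ℝ ∞ (OO v)) ∧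
  (AxF (UU v) ∧ AxF (WW v) ∧ AxF (JJ v) ∧ AxF (OO v)) ∧ Axi (vort v) ∧
  ∀ x, v x 0 = x 0 * UU v x - x 1 * WW v x ∧ v x 1 = x 1 * UU v x + x 0 * WW v x ∧
    vort v x 0 = x 0 * JJ v x - x 1 * OO v x ∧ vort v x 1 = x 1 * JJ v x + x 0 * OO v x ∧
    vort v x 2 = 2 * WW v x + RR (WW v) x ∧ JJ v x = -pd 2 (WW v) x ∧
    sg x * OO v x = sg x * pd 2 (UU v) x - RR (fun y => v y 2) x ∧
    ∑ i, pd i (fun y => v y i) x = 2 * UU v x + RR (UU v) x + pd 2 (fun y => v y 2) x ∧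
    circ v x = sg x * WW v x ∧ rad v x = sg x * UU v x ∧
    (pd 0 (circ v) x = x 0 * vort v x 2 ∧ pd 1 (circ v) x = x 1 * vort v x 2 ∧
      pd 2 (circ v) x = -(sg x * JJ v x) ∧ rad (vort v) x = sg x * JJ v x) ∧
    x 0 * pd 1 (fun y => v y 2) x = x 1 * pd 0 (fun y => v y 2) x

/-- AXI-DIV. The elliptic equation of `UU` and the bound of the gradient. -/
def StmDiv : Prop := ∃ C : ℝ, 0 < C ∧ ∀ (O : Set V) (v : V → V), IsOpen O → ContDiff ℝ ∞ v →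
  Axi v → DFO O v → ∀ x ∈ O, sg x ≠ 0 → LL (UU v) x = pd 2 (OO v) x ∧
    W221.NS.gsq v x ≤ C * (UU v x ^ 2 + WW v x ^ 2
      + sg x * (gr2 (UU v) x + gr2 (WW v) x + OO v x ^ 2))

/-- AXI-AXF. Derivatives of axisymmetric functions. -/
def StmAxF : Prop := ∀ f : V → ℝ, ContDiff ℝ ∞ f → AxF f →
  (∀ x, x 0 * pd 1 f x = x 1 * pd 0 f x) ∧ AxF (RR f) ∧ AxF (pd 2 f) ∧
  (∃ q : V → ℝ, ContDiff ℝ ∞ q ∧ AxF q ∧ ∀ x, pd 0 f x = x 0 * q x ∧ pd 1 f x = x 1 * q x ∧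
    RR f x = sg x * q x)

/-- AXI-H0. -/
def StmH0 : Prop := ∀ F : V → ℝ, ContDiff ℝ 1 F → HasCompactSupport F → (∀ x, 0 ≤ F x) →
  Integrable (fun x => RR F x / sg x) ∧ ∫ x, RR F x / sg x ≤ 0

/-- AXI-HAR. Hardy inequality with logarithm. -/
def StmHar : Prop := ∀ F : V → ℝ, ContDiff ℝ 1 F → HasCompactSupport F →
  (∀ x, F x ≠ 0 → sg x ≤ Real.exp (-2)) →
    Integrable (fun x => F x ^ 2 / (sg x * Real.log (sg x) ^ 2)) ∧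
    ∫ x, F x ^ 2 / (sg x * Real.log (sg x) ^ 2) ≤ ∫ x, (pd 0 F x ^ 2 + pd 1 F x ^ 2)

/-- AXI-ELL. -/
def StmEll : Prop := ∀ F : V → ℝ, ContDiff ℝ ∞ F → HasCompactSupport F → AxF F →
  Integrable (fun x => LL F x ^ 2) ∧ HD F ≤ ∫ x, LL F x ^ 2 ∧ GD F ≤ -∫ x, F x * LL F x

/-- AXI-SOB. -/
def StmSob : Prop := ∃ C : ℝ, 0 < C ∧ ∀ (F : V → ℝ) (a : V), ContDiff ℝ ∞ F →
  (∀ x, F x ≠ 0 → ‖x - a‖ ≤ 1) → (∀ x, F x ^ 2 ≤ C * HD F) ∧ ∫ x, F x ^ 2 ≤ C * GD F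

/-- AXI-EN. Energy inequality at one time. -/
def StmEn : Prop := ∀ (O : Set V) (v : V → V) (f S φ : V → ℝ), IsOpen O → ContDiff ℝ ∞ v →
  DFO O v → ContDiff ℝ ∞ f → ContDiff ℝ ∞ S → ContDiff ℝ ∞ φ → HasCompactSupport φ →
  tsupport φ ⊆ O →
    Integrable (fun x => φ x ^ 2 * f x * LL f x) ∧
    Integrable (fun x => 2 / sg x * RR (fun y => φ y ^ 2) x * f x ^ 2) ∧
    ∫ x, 2 * φ x ^ 2 * f x * (LL f x - W221.NS.adv v f x + S x)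
      ≤ -2 * GD (fun x => φ x * f x) + 2 * (∫ x, φ x ^ 2 * f x * S x)
        + ∫ x, f x ^ 2 * (2 * gr2 φ x + W221.NS.adv v (fun y => φ y ^ 2) x
          - 2 / sg x * RR (fun y => φ y ^ 2) x)

/-- AXI-T1. -/
def StmT1 : Prop := ∀ K c r h r1 h1 C' α' : ℝ, 0 ≤ K → 0 < r1 → r1 < r →
  r ^ 2 ≤ Real.exp (-2) → 0 < h1 → h1 < h → h ≤ 1 → 0 ≤ C' → 1 < α' → α' ≤ 2 →
  ∃ C : ℝ, 0 ≤ C ∧ ∀ (M : ℝ) (v : V → V) (φ : V → ℝ), 3 ≤ M → ContDiff ℝ ∞ v → Axi v →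
    DFO (Co c r h) v → Cut c r h r1 h1 K φ → (∀ x ∈ Out c r h r1 h1, BdA K v x) →
    (∀ x ∈ Co c r h, sg x ≠ 0 → |circ v x| ≤ C' * |Real.log (sg x)| ^ (-α')) →
      2 * |∫ x, φ x ^ 2 * JJ v x * SS v x| ≤ 1 / 8 * GD (fun x => φ x * JJ v x)
        + C * Real.log M ^ (2 - 2 * α') * GD (fun x => φ x * OO v x)
        + C * M ^ (3 / 8 : ℝ) * (1 + ∫ x in Co c r h, (W221.NS.gsq v x + W221.NS.nsq v x))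

/-- AXI-T2. -/
def StmT2 : Prop := ∀ K c r h r1 h1 C' α' : ℝ, 0 ≤ K → 0 < r1 → r1 < r →
  r ^ 2 ≤ Real.exp (-2) → 0 < h1 → h1 < h → h ≤ 1 → 0 ≤ C' → 1 < α' → α' ≤ 2 →
  ∃ C : ℝ, 0 ≤ C ∧ ∀ (M : ℝ) (v : V → V) (φ : V → ℝ), 3 ≤ M → ContDiff ℝ ∞ v → Axi v →
    Cut c r h r1 h1 K φ →
    (∀ x ∈ Co c r h, sg x ≠ 0 → |circ v x| ≤ C' * |Real.log (sg x)| ^ (-α')) →
    (∀ x ∈ Co c r h, |WW v x| ≤ M) →
      4 * |∫ x, φ x ^ 2 * OO v x * (WW v x * JJ v x)|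
        ≤ C * Real.log M ^ (2 - α')
            * √(GD (fun x => φ x * JJ v x) * GD (fun x => φ x * OO v x))
          + C * M ^ (3 / 8 : ℝ) * ∫ x in Co c r h, W221.NS.gsq v x

/-- AXI-U. Bounds of `UU`. -/
def StmU : Prop := ∀ K c r h r1 h1 : ℝ, 0 ≤ K → 0 < r1 → r1 < r → r ≤ 1 →
  0 < h1 → h1 < h → h ≤ 1 → ∃ C : ℝ, 0 ≤ C ∧ ∀ (v : V → V) (φ : V → ℝ), ContDiff ℝ ∞ v → Axi v →
    DFO (Co c r h) v → Cut c r h r1 h1 K φ → (∀ x ∈ Out c r h r1 h1, BdA K v x) →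
      HD (fun x => φ x * UU v x) ≤ 2 * GD (fun x => φ x * OO v x) + C ∧
      GD (fun x => φ x * UU v x) ≤ C * (1 + ∫ x, φ x ^ 2 * OO v x ^ 2) ∧
      (∀ x, (φ x * UU v x) ^ 2 ≤ C * (1 + GD (fun x => φ x * OO v x))) ∧
      ∫ x, (φ x * UU v x) ^ 2 ≤ C * (1 + ∫ x, φ x ^ 2 * OO v x ^ 2)

/-- AXI-KAP. From bounds of the derivatives in the outer region. -/
def StmKap : Prop := ∀ K c r h r1 h1 : ℝ, 0 ≤ K → 0 < r1 → r1 < r → 0 < h1 → h1 < h →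
  ∃ K' : ℝ, 0 ≤ K' ∧ ∀ v : V → V, ContDiff ℝ ∞ v → Axi v → W221.NS.Bd3 K (Out c r h r1 h1) v →
    ∀ x ∈ Out c r h r1 h1, BdA K' v x

/-- AXI-CUT. -/
def StmCut : Prop := ∀ c r h r1 h1 : ℝ, 0 < r1 → r1 < r → 0 < h1 → h1 < h →
  ∃ (K : ℝ) (φ : V → ℝ), 0 ≤ K ∧ Cut c r h r1 h1 K φ

/-- AXI-PSI. Cut-off functions at all points and scales. -/
def StmPsi : Prop := ∃ K : ℝ, 0 < K ∧ ∀ (x : V) (r : ℝ), 0 < r → ∃ ψ : V → ℝ, ContDiff ℝ ∞ ψ ∧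
  (∀ y, 0 ≤ ψ y ∧ ψ y ≤ 1) ∧ (∀ y ∈ closedBall x r, ψ y = 1) ∧
  (∀ y, ψ y ≠ 0 → ‖y - x‖ ≤ K * r) ∧ (∀ y i, |pd i ψ y| ≤ K / r) ∧
  ∀ y, |RR ψ y| ≤ K / r ^ 2 * sg y

/-! ### The equations -/

/-- AXI-EQC. The equation of the circulation. -/
def StmEqC : Prop := ∀ (T E c R H : ℝ) (u : ℝ → V → V) (p : ℝ → V → ℝ), AxL T E c R H u p →
  ∀ t ∈ Ioo 0 T, ∀ x ∈ Co c R H, sg x ≠ 0 →
    HasDerivAt (fun s => circ (u s) x) (lap (circ (u t)) x - 2 / sg x * RR (circ (u t)) x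
      - W221.NS.adv (u t) (circ (u t)) x) t

/-- AXI-EQW. -/
def StmEqW : Prop := ∀ (T E c R H : ℝ) (u : ℝ → V → V) (p : ℝ → V → ℝ), AxL T E c R H u p →
  ∀ t ∈ Ioo 0 T, ∀ x ∈ Co c R H, sg x ≠ 0 →
    HasDerivAt (fun s => WW (u s) x) (LL (WW (u t)) x
      - W221.NS.adv (u t) (WW (u t)) x - 2 * UU (u t) x * WW (u t) x) t

/-- AXI-EQJ. -/
def StmEqJ : Prop := ∀ (T E c R H : ℝ) (u : ℝ → V → V) (p : ℝ → V → ℝ), AxL T E c R H u p →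
  ∀ t ∈ Ioo 0 T, ∀ x ∈ Co c R H, sg x ≠ 0 →
    HasDerivAt (fun s => JJ (u s) x) (LL (JJ (u t)) x
      - W221.NS.adv (u t) (JJ (u t)) x + SS (u t) x) t

/-- AXI-EQO. -/
def StmEqO : Prop := ∀ (T E c R H : ℝ) (u : ℝ → V → V) (p : ℝ → V → ℝ), AxL T E c R H u p →
  ∀ t ∈ Ioo 0 T, ∀ x ∈ Co c R H, sg x ≠ 0 →
    HasDerivAt (fun s => OO (u s) x) (LL (OO (u t)) x
      - W221.NS.adv (u t) (OO (u t)) x - 2 * WW (u t) x * JJ (u t) x) t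

/-- AXI-JNT. Joint smoothness. -/
def StmJnt : Prop := ∀ (T : ℝ) (u : ℝ → V → V),
  ContDiffOn ℝ ∞ (fun z : ℝ × V => u z.1 z.2) (Ioo 0 T ×ˢ univ) →
    ContDiffOn ℝ ∞ (fun z : ℝ × V => UU (u z.1) z.2) (Ioo 0 T ×ˢ univ) ∧
    ContDiffOn ℝ ∞ (fun z : ℝ × V => WW (u z.1) z.2) (Ioo 0 T ×ˢ univ) ∧
    ContDiffOn ℝ ∞ (fun z : ℝ × V => JJ (u z.1) z.2) (Ioo 0 T ×ˢ univ) ∧
    ContDiffOn ℝ ∞ (fun z : ℝ × V => OO (u z.1) z.2) (Ioo 0 T ×ˢ univ)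

/-- AXI-DT. Derivative in time of the energy, and continuity of the dissipation. -/
def StmDt : Prop := ∀ (T : ℝ) (f : ℝ → V → ℝ) (φ : V → ℝ),
  ContDiffOn ℝ ∞ (fun z : ℝ × V => f z.1 z.2) (Ioo 0 T ×ˢ univ) → ContDiff ℝ ∞ φ →
  HasCompactSupport φ →
    ContinuousOn (fun t => GD (fun x => φ x * f t x)) (Ioo 0 T) ∧
    ∀ t ∈ Ioo 0 T, HasDerivAt (fun s => ∫ x, φ x ^ 2 * f s x ^ 2)
      (∫ x, 2 * φ x ^ 2 * f t x * deriv (fun s => f s x) t) t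

/-! ### Estimates -/

/-- AXI-YD. The differential inequality, if `|WW| ≤ M`. -/
def StmYd : Prop := ∀ (T E c R H K r h r1 h1 T₁ C' α' : ℝ) (u : ℝ → V → V) (p : ℝ → V → ℝ)
  (φ : V → ℝ), AxL T E c R H u p → 0 ≤ K → 0 < r1 → r1 < r → r < R → r ^ 2 ≤ Real.exp (-2) →
  0 < h1 → h1 < h → h < H → h ≤ 1 → 0 < T₁ → T₁ < T → 0 ≤ C' → 3 / 2 < α' → α' ≤ 2 →
  Cut c r h r1 h1 K φ → (∀ t ∈ Ico T₁ T, ∀ x ∈ Out c r h r1 h1, BdA K (u t) x) →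
  (∀ t ∈ Ico T₁ T, ∀ x ∈ Co c r h, sg x ≠ 0 →
    |circ (u t) x| ≤ C' * |Real.log (sg x)| ^ (-α')) →
    ∃ C M₀ : ℝ, 0 ≤ C ∧ 3 ≤ M₀ ∧ ∀ M : ℝ, M₀ ≤ M → ∃ l : ℝ, M ^ (-(1 / 16) : ℝ) ≤ l ∧ l ≤ 1 ∧
      ∀ t ∈ Ico T₁ T, (∀ x ∈ Co c r h, |WW (u t) x| ≤ M) → ∃ D' : ℝ,
        HasDerivAt (fun s => (∫ x, φ x ^ 2 * JJ (u s) x ^ 2)
          + l * ∫ x, φ x ^ 2 * OO (u s) x ^ 2) D' t ∧
        D' ≤ -(GD (fun x => φ x * JJ (u t) x) + l * GD (fun x => φ x * OO (u t) x))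
          + C * M ^ (3 / 8 : ℝ) * (1 + ∫ x in Co c r h, W221.NS.gsq (u t) x)

/-- AXI-BAR. Comparison for the circulation in a cylinder, on the time interval `[T₁, T₂)`. -/
def StmBar : Prop := ∀ (T E c R H r h T₁ T₂ : ℝ) (u : ℝ → V → V) (p : ℝ → V → ℝ)
  (κ κt κs κss : ℝ → ℝ → ℝ), AxL T E c R H u p → 0 < r → r < R → 0 < h → h < H → 0 < T₁ →
  T₁ < T₂ → T₂ ≤ T →
  ContinuousOn (fun z : ℝ × ℝ => κ z.1 z.2) (Ico T₁ T₂ ×ˢ Ioc 0 (r ^ 2)) →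
  (∀ t ∈ Ioo T₁ T₂, ∀ s ∈ Ioo 0 (r ^ 2), HasDerivAt (fun τ => κ τ s) (κt t s) t ∧
    HasDerivAt (κ t) (κs t s) s ∧ HasDerivAt (κs t) (κss t s) s) →
  (∀ t ∈ Ioo T₁ T₂, ContDiffOn ℝ 2 (κ t) (Ioo 0 (r ^ 2))) →
  (∀ t ∈ Ico T₁ T₂, ∀ s ∈ Ioc 0 (r ^ 2), 0 ≤ κ t s) →
  (∀ T' ∈ Ioo T₁ T₂, ∀ A : ℝ, ∃ δ > 0, ∀ t ∈ Icc T₁ T', ∀ s ∈ Ioc 0 (r ^ 2), s < δ →
    A * s ≤ κ t s) →
  (∀ t ∈ Ico T₁ T₂, ∀ x ∈ Cy c r h, 0 < sg x → (sg x = r ^ 2 ∨ |x 2 - c| = h) →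
    |circ (u t) x| ≤ κ t (sg x)) →
  (∀ x ∈ Cy c r h, 0 < sg x → |circ (u T₁) x| ≤ κ T₁ (sg x)) →
  (∀ t ∈ Ioo T₁ T₂, ∀ x ∈ Co c r h, 0 < sg x → ∀ σ : ℝ, (σ = 1 ∨ σ = -1) →
    κ t (sg x) < σ * circ (u t) x → pd 2 (circ (u t)) x = 0 →
    pd 0 (circ (u t)) x = σ * (2 * x 0 * κs t (sg x)) →
    pd 1 (circ (u t)) x = σ * (2 * x 1 * κs t (sg x)) →
    0 < κt t (sg x) + 2 * rad (u t) x * κs t (sg x) - 4 * sg x * κss t (sg x)) →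
  ∀ t ∈ Ico T₁ T₂, ∀ x ∈ Cy c r h, 0 < sg x → |circ (u t) x| ≤ κ t (sg x)

/-- AXI-LOG. The logarithmic bound of the circulation. -/
def StmLog : Prop := ∀ (T E c R H r h T₁ K : ℝ) (u : ℝ → V → V) (p : ℝ → V → ℝ) (B : ℝ → ℝ)
  (α α' C : ℝ), AxL T E c R H u p → 0 < r → r < R → r < 1 → 0 < h → h < H → 0 < T₁ → T₁ < T →
  (∀ t ∈ Ico T₁ T, ∀ x ∈ Cy c r h, (sg x = r ^ 2 ∨ |x 2 - c| = h) → |WW (u t) x| ≤ K) →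
  ContinuousOn B (Ioo 0 T) → IntegrableOn B (Ioo 0 T) → 0 < α' → α' < α → 0 ≤ C →
  (∀ t ∈ Ioo T₁ T, ∀ x ∈ Co c r h, 0 < sg x →
    C * |Real.log (sg x)| ^ (-α) < |circ (u t) x| → rad (vort (u t)) x = 0 →
    0 < circ (u t) x * vort (u t) x 2 →
    -2 + 2 * (α + 1) / |Real.log (sg x)| - B t * sg x ≤ rad (u t) x) →
    ∃ C' : ℝ, 0 ≤ C' ∧ ∀ t ∈ Ico T₁ T, ∀ x ∈ Cy c r h, 0 < sg x →
      |circ (u t) x| ≤ C' * |Real.log (sg x)| ^ (-α')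

/-- AXI-SM. Smoothing: the bound of `WW` after the time `τ`. -/
def StmSm : Prop := ∀ (T E c R H r h T₁ K c₀ : ℝ) (u : ℝ → V → V) (p : ℝ → V → ℝ),
  AxL T E c R H u p → 0 < r → r < R → 0 < h → h < H → 0 < T₁ → T₁ < T →
  (∀ t ∈ Ico T₁ T, ∀ x ∈ Cy c r h, |circ (u t) x| ≤ c₀ ∧
    ((sg x = r ^ 2 ∨ |x 2 - c| = h) → |WW (u t) x| ≤ K)) →
    ∃ C : ℝ, 0 ≤ C ∧ ∀ τ ∈ Ioc (0 : ℝ) 1, ∀ t' ∈ Ico T₁ T, ∀ B : ℝ → ℝ,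
      ContinuousOn B (Icc T₁ t') →
      (∀ t ∈ Icc T₁ t', ∀ x ∈ Cy c r h, |UU (u t) x| ≤ B t) →
      ∫ t in (max T₁ (t' - τ))..t', B t ≤ 1 → ∀ x ∈ Cy c r h, |WW (u t') x| ≤ C / τ

/-- AXI-BT. The bound of `WW`. -/
def StmBt : Prop := ∀ (T E c R H K r h r1 h1 T₁ C' α' : ℝ) (u : ℝ → V → V) (p : ℝ → V → ℝ)
  (φ : V → ℝ), AxL T E c R H u p → 0 ≤ K → 0 < r1 → r1 < r → r < R → r ^ 2 ≤ Real.exp (-2) →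
  0 < h1 → h1 < h → h < H → h ≤ 1 → 0 < T₁ → T₁ < T → 0 ≤ C' → 3 / 2 < α' → α' ≤ 2 →
  Cut c r h r1 h1 K φ → (∀ t ∈ Ico T₁ T, ∀ x ∈ Out c r h r1 h1, BdA K (u t) x) →
  (∀ t ∈ Ico T₁ T, ∀ x ∈ Co c r h, sg x ≠ 0 →
    |circ (u t) x| ≤ C' * |Real.log (sg x)| ^ (-α')) →
    ∃ K' : ℝ, 0 ≤ K' ∧ ∀ t ∈ Ico T₁ T, ∀ x ∈ Co c r h, |WW (u t) x| ≤ K'

/-- AXI-YI. The bounds at all times. -/
def StmYi : Prop := ∀ (T E c R H K r h r1 h1 T₁ C' α' K' : ℝ) (u : ℝ → V → V) (p : ℝ → V → ℝ)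
  (φ : V → ℝ), AxL T E c R H u p → 0 ≤ K → 0 < r1 → r1 < r → r < R → r ^ 2 ≤ Real.exp (-2) →
  0 < h1 → h1 < h → h < H → h ≤ 1 → 0 < T₁ → T₁ < T → 0 ≤ C' → 3 / 2 < α' → α' ≤ 2 →
  Cut c r h r1 h1 K φ → (∀ t ∈ Ico T₁ T, ∀ x ∈ Out c r h r1 h1, BdA K (u t) x) →
  (∀ t ∈ Ico T₁ T, ∀ x ∈ Co c r h, sg x ≠ 0 →
    |circ (u t) x| ≤ C' * |Real.log (sg x)| ^ (-α')) →
  (∀ t ∈ Ico T₁ T, ∀ x ∈ Co c r h, |WW (u t) x| ≤ K') →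
    ∃ C : ℝ, 0 ≤ C ∧ ∀ t ∈ Ico T₁ T, (∫ x, φ x ^ 2 * OO (u t) x ^ 2) ≤ C ∧
      GD (fun x => φ x * UU (u t) x) ≤ C ∧ ∫ x, (φ x * UU (u t) x) ^ 2 ≤ C

/-- AXI-CAC. Dissipation of `WW` in small balls. -/
def StmCac : Prop := ∀ (T E c R H r h T₁ K : ℝ) (u : ℝ → V → V) (p : ℝ → V → ℝ),
  AxL T E c R H u p → 0 < r → r < R → 0 < h → h < H → 0 < T₁ → T₁ < T → 0 ≤ K →
  (∀ t ∈ Ico T₁ T, (∀ x ∈ Cy c r h, |WW (u t) x| ≤ K) ∧ ∫ x in Cy c r h, UU (u t) x ^ 2 ≤ K) →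
    ∃ C ρ T₂ : ℝ, 0 ≤ C ∧ 0 < ρ ∧ T₁ < T₂ ∧ T₂ < T ∧ ∀ t ∈ Ioo T₂ T, ∀ x : V,
      ‖x - ![0, 0, c]‖ ≤ ρ → ∀ s ∈ Ioc 0 ρ,
        ∫ τ in Ioo (t - s ^ 2) t, ∫ y in ball x s, gr2 (WW (u τ)) y ≤ C * s ^ 2

/-- AXI-FIN. The scaled dissipation is small near the centre. -/
def StmFin : Prop := ∀ (T E c R H r h T₁ K : ℝ) (u : ℝ → V → V) (p : ℝ → V → ℝ),
  AxL T E c R H u p → 0 < r → r < R → 0 < h → h < H → 0 < T₁ → T₁ < T → 0 ≤ K →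
  (∀ t ∈ Ico T₁ T, (∀ x ∈ Cy c r h, |WW (u t) x| ≤ K) ∧
    ∫ x in Cy c r h, (UU (u t) x ^ 2 + gr2 (UU (u t)) x + OO (u t) x ^ 2) ≤ K) →
    ∀ ε : ℝ, 0 < ε → Qt ε T u ![0, 0, c]

/-- AXI-MO. The bound of the mollified velocity near the centre. -/
def StmMo : Prop := ∀ (T E c R H r h T₁ K : ℝ) (u : ℝ → V → V) (p : ℝ → V → ℝ),
  AxL T E c R H u p → 0 < r → r < R → 0 < h → h < H → 0 < T₁ → T₁ < T → 0 ≤ K →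
  (∀ t ∈ Ico T₁ T, (∀ x ∈ Cy c r h, |WW (u t) x| ≤ K) ∧
    ∫ x in Cy c r h, (UU (u t) x ^ 2 + gr2 (UU (u t)) x + OO (u t) x ^ 2) ≤ K) →
    ∃ K₀ : ℝ, 0 ≤ K₀ ∧ Mo K₀ T u ![0, 0, c]

/-! ### Regular points -/

/-- AXI-REG. -/
def StmReg : Prop := ∀ K : ℝ, 0 ≤ K → ∃ ε : ℝ, 0 < ε ∧ ∀ (T E : ℝ) (O : Set V) (u : ℝ → V → V)
  (p : ℝ → V → ℝ), 0 < T → LSl T E O u p → ∀ y ∈ O, Mo K T u y → Qt ε T u y → Rg T u y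

/-- AXI-BQ. Boundedness implies small scaled dissipation. -/
def StmBQ : Prop := ∀ (T E : ℝ) (O : Set V) (u : ℝ → V → V) (p : ℝ → V → ℝ), 0 < T →
  LSl T E O u p → ∀ y ∈ O, Rg T u y → ∀ ε : ℝ, 0 < ε → Qt ε T u y

/-- AXI-DER. Derivative bounds near a regular point. -/
def StmDer : Prop := ∀ (T E : ℝ) (O : Set V) (u : ℝ → V → V) (p : ℝ → V → ℝ), 0 < T →
  LSl T E O u p → ∀ y ∈ O, Rg T u y →
    ∃ K δ : ℝ, 0 ≤ K ∧ 0 < δ ∧ δ < T ∧ ∀ t ∈ Ioo (T - δ) T, W221.NS.Bd3 K (ball y δ) (u t)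

/-- AXI-GR. Regular points of axisymmetric solutions. -/
def StmGR : Prop := ∀ (T E c R H : ℝ) (u : ℝ → V → V) (p : ℝ → V → ℝ), 0 < T → 0 < R →
  AxL T E c R H u p → (∀ y ∈ Co c R H, 0 < sg y → Rg T u y) ∧
    ∀ h₀ : ℝ, 0 < h₀ → h₀ < H → ∃ h : ℝ, 0 < h ∧ h < h₀ ∧ Rg T u ![0, 0, c + h] ∧
      Rg T u ![0, 0, c - h]

/-- AXI-GD. The bounds in the outer region. -/
def StmGd : Prop := ∀ (T E c R H : ℝ) (u : ℝ → V → V) (p : ℝ → V → ℝ), 0 < T → 0 < R → 0 < H →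
  AxL T E c R H u p → ∀ r h₀ : ℝ, 0 < r → r < R → 0 < h₀ → h₀ < H →
    ∃ h h1 : ℝ, 0 < h1 ∧ h1 < h ∧ h < h₀ ∧ ∀ r' r1 : ℝ, r' ≤ r → 0 < r1 → r1 < r' →
      ∃ K T₁ : ℝ, 0 ≤ K ∧ 0 < T₁ ∧ T₁ < T ∧
        ∀ t ∈ Ico T₁ T, ∀ x ∈ Out c r' h r1 h1, BdA K (u t) x

/-- AXI-MAIN. -/
def StmMain : Prop := ∀ (T E c R H T₀ : ℝ) (u : ℝ → V → V) (p : ℝ → V → ℝ) (B : ℝ → ℝ)
  (α C : ℝ), 0 < T → 0 < R → 0 < H → AxL T E c R H u p → T₀ < T →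
  ContinuousOn B (Ioo 0 T) → IntegrableOn B (Ioo 0 T) → 3 / 2 < α → 0 ≤ C →
  (∀ t ∈ Ioo 0 T, T₀ < t → ∀ x ∈ Co c R H, 0 < sg x → sg x < 1 →
    C * |Real.log (sg x)| ^ (-α) < |circ (u t) x| → rad (vort (u t)) x = 0 →
    0 < circ (u t) x * vort (u t) x 2 →
    -2 + 2 * (α + 1) / |Real.log (sg x)| - B t * sg x ≤ rad (u t) x) →
    Rg T u ![0, 0, c]

/-! ### Transfer -/

/-- AXI-TRA. From solutions in a domain to the class `AxL`. -/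
def StmTra : Prop := ∀ (ν T E : ℝ) (Ω : Set V) (u : ℝ → V → V) (p : ℝ → V → ℝ), 0 < ν → 0 < T →
  DSl ν T E Ω u p →
  (∀ t ∈ Ioo 0 T, ∀ (θ : ℝ), ∀ x ∈ Ω, rot θ x ∈ Ω → u t (rot θ x) = rot θ (u t x)) →
    ∀ c R : ℝ, 0 < R → closedBall ![0, 0, c] R ⊆ Ω →
      ∃ (E' : ℝ) (v : ℝ → V → V) (q : ℝ → V → ℝ), AxL (ν * T) E' c (R / 2) (R / 2) v q ∧
        ∀ t ∈ Ioo 0 T, ∀ x ∈ Co c (R / 2) (R / 2), v (ν * t) x = ν⁻¹ • u t x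

/-- AXI-WHO. Solutions in the whole space are solutions in the balls. -/
def StmWho : Prop := ∀ (ν T E : ℝ) (u : ℝ → V → V) (p : ℝ → V → ℝ), 0 < ν → 0 < T →
  WSl ν T E u p → ∀ R : ℝ, DSl ν T E (ball 0 R) u p

end Pool.Agent.Q67.AXI
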