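import Pool.Agent.Q67.AXI.Defs

/-!
Project AXI, third part (helper67): the final form. The excess of the inflow may be as large as
`(c₁ / (T - t) + B(t)) ρ` with `c₁ < 1 / 2`. The logarithmic bound of the circulation is then known
in the region `ρ² ≤ (T - t) ^ θ` only, `2 c₁ < θ < 1`.
-/

set_option autoImplicit false

open MeasureTheory Set Metric Filter Topology
open scoped ContDiff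
open H459R3.NS Pool.Agent.W268.NS Pool.Agent.Q67.VD

namespace Pool.Agent.Q67.AXI

open Pool.Agent.Q85.CC Pool.Agent.Q85.CL Pool.Agent.TH305.AX

/-- `1 / P` if `P < M ^ (-1 / 8)`, and zero otherwise. -/
noncomputable def PM (M P : ℝ) : ℝ := if P < M ^ (-(1 / 8) : ℝ) then P⁻¹ else 0

/-- `log ((T - t) ^ (2 c₁) / ρ²)`. -/
noncomputable def lam (T c₁ t : ℝ) (x : V) : ℝ := Real.log ((T - t) ^ (2 * c₁) / sg x)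

/-- AXP-T1. -/
def StmT1P : Prop := ∀ K c r h r1 h1 C' C₀ α' : ℝ, 0 ≤ K → 0 < r1 → r1 < r →
  r ^ 2 ≤ Real.exp (-2) → 0 < h1 → h1 < h → h ≤ 1 → 0 ≤ C' → 0 ≤ C₀ → 1 < α' → α' ≤ 2 →
  ∃ C : ℝ, 0 ≤ C ∧ ∀ (M P : ℝ) (v : V → V) (φ : V → ℝ), 3 ≤ M → 0 < P → ContDiff ℝ ∞ v →
    Axi v → DFO (Co c r h) v → Cut c r h r1 h1 K φ → (∀ x ∈ Out c r h r1 h1, BdA K v x) →
    (∀ x ∈ Co c r h, |circ v x| ≤ C₀) →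
    (∀ x ∈ Co c r h, sg x ≠ 0 → sg x ≤ P → |circ v x| ≤ C' * |Real.log (sg x)| ^ (-α')) →
      2 * |∫ x, φ x ^ 2 * JJ v x * SS v x| ≤ 1 / 8 * GD (fun x => φ x * JJ v x)
        + C * Real.log M ^ (2 - 2 * α') * GD (fun x => φ x * OO v x)
        + C * M ^ (3 / 8 : ℝ) * (1 + ∫ x in Co c r h, (W221.NS.gsq v x + W221.NS.nsq v x))
        + C * PM M P * (1 + ∫ x, φ x ^ 2 * OO v x ^ 2)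

/-- AXP-T2. -/
def StmT2P : Prop := ∀ K c r h r1 h1 C' C₀ α' : ℝ, 0 ≤ K → 0 < r1 → r1 < r →
  r ^ 2 ≤ Real.exp (-2) → 0 < h1 → h1 < h → h ≤ 1 → 0 ≤ C' → 0 ≤ C₀ → 1 < α' → α' ≤ 2 →
  ∃ C : ℝ, 0 ≤ C ∧ ∀ (M P : ℝ) (v : V → V) (φ : V → ℝ), 3 ≤ M → 0 < P → ContDiff ℝ ∞ v →
    Axi v → Cut c r h r1 h1 K φ → (∀ x ∈ Co c r h, |circ v x| ≤ C₀) →
    (∀ x ∈ Co c r h, sg x ≠ 0 → sg x ≤ P → |circ v x| ≤ C' * |Real.log (sg x)| ^ (-α')) →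
    (∀ x ∈ Co c r h, |WW v x| ≤ M) →
      4 * |∫ x, φ x ^ 2 * OO v x * (WW v x * JJ v x)|
        ≤ C * Real.log M ^ (2 - α')
            * √(GD (fun x => φ x * JJ v x) * GD (fun x => φ x * OO v x))
          + C * M ^ (3 / 8 : ℝ) * (∫ x in Co c r h, W221.NS.gsq v x)
          + C * PM M P * ((∫ x, φ x ^ 2 * JJ v x ^ 2) + ∫ x, φ x ^ 2 * OO v x ^ 2)

/-- AXP-YD. The differential inequality, if `|WW| ≤ M`. -/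
def StmYdP : Prop := ∀ (T E c R H K r h r1 h1 T₁ C' C₀ α' θ ε₀ : ℝ) (u : ℝ → V → V)
  (p : ℝ → V → ℝ) (φ : V → ℝ), AxL T E c R H u p → 0 ≤ K → 0 < r1 → r1 < r → r < R →
  r ^ 2 ≤ Real.exp (-2) → 0 < h1 → h1 < h → h < H → h ≤ 1 → 0 < T₁ → T₁ < T → 0 ≤ C' →
  0 ≤ C₀ → 3 / 2 < α' → α' ≤ 2 → 0 < ε₀ → Cut c r h r1 h1 K φ →
  (∀ t ∈ Ico T₁ T, ∀ x ∈ Out c r h r1 h1, BdA K (u t) x) →
  (∀ t ∈ Ico T₁ T, ∀ x ∈ Co c r h, |circ (u t) x| ≤ C₀ ∧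
    (sg x ≠ 0 → sg x ≤ (T - t) ^ θ → |circ (u t) x| ≤ C' * |Real.log (sg x)| ^ (-α'))) →
    ∃ C M₀ : ℝ, 0 ≤ C ∧ 3 ≤ M₀ ∧ ∀ M : ℝ, M₀ ≤ M → ∃ l : ℝ, M ^ (-ε₀) ≤ l ∧ l ≤ 1 ∧
      ∀ t ∈ Ico T₁ T, (∀ x ∈ Co c r h, |WW (u t) x| ≤ M) → ∃ D' : ℝ,
        HasDerivAt (fun s => (∫ x, φ x ^ 2 * JJ (u s) x ^ 2)
          + l * ∫ x, φ x ^ 2 * OO (u s) x ^ 2) D' t ∧
        D' ≤ -(GD (fun x => φ x * JJ (u t) x) + l * GD (fun x => φ x * OO (u t) x))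
          + C * M ^ (3 / 8 : ℝ) * (1 + ∫ x in Co c r h, W221.NS.gsq (u t) x)
          + C * PM M ((T - t) ^ θ) * (1 + ((∫ x, φ x ^ 2 * JJ (u t) x ^ 2)
            + l * ∫ x, φ x ^ 2 * OO (u t) x ^ 2) / l)

/-- AXP-LOG. The bound of the circulation. -/
def StmLogP : Prop := ∀ (T E c R H r h T₁ K c₁ θ : ℝ) (u : ℝ → V → V) (p : ℝ → V → ℝ)
  (B : ℝ → ℝ) (α α' C : ℝ), AxL T E c R H u p → 0 < r → r < R → r < 1 → 0 < h → h < H →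
  0 < T₁ → T₁ < T →
  (∀ t ∈ Ico T₁ T, ∀ x ∈ Cy c r h, (sg x = r ^ 2 ∨ |x 2 - c| = h) → |WW (u t) x| ≤ K) →
  ContinuousOn B (Ioo 0 T) → IntegrableOn B (Ioo 0 T) → 0 < α' → α' < α → 0 ≤ C →
  0 ≤ c₁ → 2 * c₁ < θ →
  (∀ t ∈ Ioo T₁ T, ∀ x ∈ Co c r h, 0 < sg x → sg x < (T - t) ^ (2 * c₁) →
    C * lam T c₁ t x ^ (-α) < |circ (u t) x| → rad (vort (u t)) x = 0 →
    0 < circ (u t) x * vort (u t) x 2 →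
    -2 + 2 * (α + 1) / lam T c₁ t x - (c₁ / (T - t) + B t) * sg x ≤ rad (u t) x) →
    ∃ C' C₀ : ℝ, 0 ≤ C' ∧ 0 ≤ C₀ ∧ ∀ t ∈ Ico T₁ T, ∀ x ∈ Cy c r h, |circ (u t) x| ≤ C₀ ∧
      (0 < sg x → sg x ≤ (T - t) ^ θ → |circ (u t) x| ≤ C' * |Real.log (sg x)| ^ (-α'))

/-- AXP-BT. The bound of `WW`. -/
def StmBtP : Prop := ∀ (T E c R H K r h r1 h1 T₁ C' C₀ α' θ : ℝ) (u : ℝ → V → V)
  (p : ℝ → V → ℝ) (φ : V → ℝ), AxL T E c R H u p → 0 ≤ K → 0 < r1 → r1 < r → r < R →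
  r ^ 2 ≤ Real.exp (-2) → 0 < h1 → h1 < h → h < H → h ≤ 1 → 0 < T₁ → T₁ < T → 0 ≤ C' →
  0 ≤ C₀ → 3 / 2 < α' → α' ≤ 2 → 0 < θ → θ < 1 → Cut c r h r1 h1 K φ →
  (∀ t ∈ Ico T₁ T, ∀ x ∈ Out c r h r1 h1, BdA K (u t) x) →
  (∀ t ∈ Ico T₁ T, ∀ x ∈ Co c r h, |circ (u t) x| ≤ C₀ ∧
    (sg x ≠ 0 → sg x ≤ (T - t) ^ θ → |circ (u t) x| ≤ C' * |Real.log (sg x)| ^ (-α'))) →
    ∃ K' : ℝ, 0 ≤ K' ∧ ∀ t ∈ Ico T₁ T, ∀ x ∈ Co c r h, |WW (u t) x| ≤ K'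

/-- AXP-YI. The bounds at all times. -/
def StmYiP : Prop := ∀ (T E c R H K r h r1 h1 T₁ C' C₀ α' θ K' : ℝ) (u : ℝ → V → V)
  (p : ℝ → V → ℝ) (φ : V → ℝ), AxL T E c R H u p → 0 ≤ K → 0 < r1 → r1 < r → r < R →
  r ^ 2 ≤ Real.exp (-2) → 0 < h1 → h1 < h → h < H → h ≤ 1 → 0 < T₁ → T₁ < T → 0 ≤ C' →
  0 ≤ C₀ → 3 / 2 < α' → α' ≤ 2 → 0 < θ → θ < 1 → Cut c r h r1 h1 K φ →
  (∀ t ∈ Ico T₁ T, ∀ x ∈ Out c r h r1 h1, BdA K (u t) x) →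
  (∀ t ∈ Ico T₁ T, ∀ x ∈ Co c r h, |circ (u t) x| ≤ C₀ ∧
    (sg x ≠ 0 → sg x ≤ (T - t) ^ θ → |circ (u t) x| ≤ C' * |Real.log (sg x)| ^ (-α'))) →
  (∀ t ∈ Ico T₁ T, ∀ x ∈ Co c r h, |WW (u t) x| ≤ K') →
    ∃ C : ℝ, 0 ≤ C ∧ ∀ t ∈ Ico T₁ T, (∫ x, φ x ^ 2 * OO (u t) x ^ 2) ≤ C ∧
      GD (fun x => φ x * UU (u t) x) ≤ C ∧ ∫ x, (φ x * UU (u t) x) ^ 2 ≤ C

/-- AXP-MAIN. -/
def StmMainP : Prop := ∀ (T E c R H T₀ c₁ : ℝ) (u : ℝ → V → V) (p : ℝ → V → ℝ) (B : ℝ → ℝ)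
  (α C : ℝ), 0 < T → 0 < R → 0 < H → AxL T E c R H u p → T₀ < T →
  ContinuousOn B (Ioo 0 T) → IntegrableOn B (Ioo 0 T) → 3 / 2 < α → 0 ≤ C → 0 ≤ c₁ →
  c₁ < 1 / 2 →
  (∀ t ∈ Ioo 0 T, T₀ < t → ∀ x ∈ Co c R H, 0 < sg x → sg x < (T - t) ^ (2 * c₁) →
    C * lam T c₁ t x ^ (-α) < |circ (u t) x| → rad (vort (u t)) x = 0 →
    0 < circ (u t) x * vort (u t) x 2 →
    -2 + 2 * (α + 1) / lam T c₁ t x - (c₁ / (T - t) + B t) * sg x ≤ rad (u t) x) →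
    Rg T u ![0, 0, c]

end Pool.Agent.Q67.AXI
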