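import Pool.Agent.Q67.AXI.Fin2
import Pool.Agent.Q182.AXI.AAs
import Pool.Agent.Q257.AXI.AxF
import Pool.Agent.Q257.AXI.Alg
import Pool.Agent.Q257.AXI.Div
import Pool.Agent.Q257.AXI.H0
import Pool.Agent.Q257.AXI.Kap
import Pool.Agent.Q175.AX.Har
import Pool.Agent.Q175.AX.Ell
import Pool.Agent.Q175.AX.Rho
import Pool.Agent.Q175.AX.UU
import Pool.Agent.Q175.AX.Sm
import Pool.Agent.Q119.AXI.Sob
import Pool.Agent.Q119.AXI.Dt
import Pool.Agent.Q119.AXI.Bar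
import Pool.Agent.Q119.AXI.Who
import Pool.Agent.Q24.AXI.Cut
import Pool.Agent.Q24.AXI.YiP
import Pool.Agent.Q149.AXI.EqC
import Pool.Agent.Q153.AXI.EqW
import Pool.Agent.Q153.AXI.EqJ
import Pool.Agent.Q153.AXI.Jnt
import Pool.Agent.Q153.AXI.T2P
import Pool.Agent.Q153.AXI.Psi
import Pool.Agent.Q150.AXI.EqO
import Pool.Agent.Q111.AXI.Cac
import Pool.Agent.Q285.AXI.Fin
import Pool.Agent.Q285.AXI.Reg
import Pool.Agent.Q16.AXI.Mo
import Pool.Agent.Q16.AXI.BQ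
import Pool.Agent.Q16.AXI.Tra
import Pool.Agent.Q151.AXI.Der
import Pool.Agent.Q151.AXI.GR
import Pool.Agent.Q95.AXI.Gd
import Pool.Agent.Q182.AXI.T1P
import Pool.Agent.Q95.AXP.Yd
import Pool.Agent.Q65.AXI.LogP
import Pool.Agent.Q65.AXI.BtP
import Pool.Agent.Q65.AXI.MainP

/-!
Project AXI: the assembly (first theorem).
-/

set_option autoImplicit false

namespace Pool.Agent.Q67.AXI

theorem hAAs : StmAAs := Pool.Agent.Q182.AXI.aas
theorem hAxF : StmAxF := Pool.Agent.Q257.AXI.t_AxF hAAs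
theorem hAlg : StmAlg := Pool.Agent.Q257.AXI.t_Alg hAAs hAxF
theorem hDiv : StmDiv := Pool.Agent.Q257.AXI.t_Div hAAs hAxF hAlg
theorem hH0 : StmH0 := Pool.Agent.Q257.AXI.t_H0
theorem hKap : StmKap := Pool.Agent.Q257.AXI.t_Kap hAAs hAxF hAlg
theorem hHar : StmHar := Pool.Agent.Q175.AX.har
theorem hEll : StmEll := Pool.Agent.Q175.AX.ell hH0 hAxF
theorem hSob : StmSob := Pool.Agent.Q119.AXI.stmSob
theorem hEn : StmEn := Pool.Agent.Q175.AX.en hH0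
theorem hU : StmU := Pool.Agent.Q175.AX.stmU hAlg hAxF hDiv hEll hSob
theorem hCut : StmCut := Pool.Agent.Q24.AXI.t_Cut
theorem hJnt : StmJnt := Pool.Agent.Q153.AXI.t_Jnt hAAs
theorem hEqC : StmEqC := Pool.Agent.Q149.AXI.t_EqC
theorem hEqW : StmEqW := Pool.Agent.Q153.AXI.t_EqW hAAs hAxF hAlg hJnt hEqC
theorem hEqJ : StmEqJ := Pool.Agent.Q153.AXI.t_EqJ hAAs hAxF hAlg hJnt hEqW
theorem hEqO : StmEqO := Pool.Agent.Q150.AXI.t_EqO hAlg
theorem hDt : StmDt := Pool.Agent.Q119.AXI.stmDt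
theorem hBar : StmBar := Pool.Agent.Q119.AXI.stmBar hAlg hEqC
theorem hBQ : StmBQ := Pool.Agent.Q16.AXI.BQ.bq
theorem hDer : StmDer := Pool.Agent.Q151.AXI.stmDer hBQ
theorem hGR : StmGR := Pool.Agent.Q151.AXI.stmGR
theorem hGd : StmGd := Pool.Agent.Q95.AXI.gd hGR hDer hKap
theorem hReg : StmReg := Pool.Agent.Q285.AXI.reg
theorem hMo : StmMo := Pool.Agent.Q16.AXI.mo hAlg hAxF
theorem hTra : StmTra := Pool.Agent.Q16.AXI.tra'
theorem hWho : StmWho := Pool.Agent.Q119.AXI.stmWho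
theorem hT1P : StmT1P := Pool.Agent.Q182.AXI.T1P.t_T1P hAlg hAxF hHar hU
theorem hT2P : StmT2P := Pool.Agent.Q153.AXI.t_T2P hAlg hHar
theorem hYdP : StmYdP :=
  Pool.Agent.Q95.AXP.yd hAlg hAxF hDiv hEqJ hEqO hJnt hDt hEn hT1P hT2P
theorem hLogP : StmLogP := Pool.Agent.Q65.AXI.t_LogP hAlg hJnt hBar
theorem hYiP : StmYiP := Pool.Agent.Q24.AXI.yiP hAlg hJnt hDt hU hYdP

theorem hPsi : StmPsi := Pool.Agent.Q153.AXI.t_Psi
theorem hCac : StmCac := Pool.Agent.Q111.AXI.cac hPsi hAlg hJnt hDt hEn hEqW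
theorem hFin : StmFin := Pool.Agent.Q285.AXI.fin hAlg hAxF hDiv hJnt hCac
theorem hSm : StmSm := Pool.Agent.Q175.AX.stmSm hAlg hBar
theorem hBtP : StmBtP := Pool.Agent.Q65.AXI.t_BtP hAlg hJnt hDt hU hYdP hSm
theorem hMainP : StmMainP :=
  Pool.Agent.Q65.AXI.t_MainP hGd hLogP hCut hBtP hYiP hFin hMo hReg hAlg

end Pool.Agent.Q67.AXI
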