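import Pool.Agent.Q67.AXI.Defs2
import Pool.Agent.Q67.AXI.Defs3

/-!
Project AXI, fourth part (helper67): the final form of the second theorem. The circulation is small
in the region `ρ² ≤ (T - t) ^ θ` only, and the excess of the outflow may be `(c₂ / (T - t) + B(t)) ρ`
for any `c₂`.
-/

set_option autoImplicit false

open MeasureTheory Set Metric Filter Topology
open scoped ContDiff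
open H459R3.NS Pool.Agent.W268.NS Pool.Agent.Q67.VD

namespace Pool.Agent.Q67.AXI

open Pool.Agent.Q85.CC Pool.Agent.Q85.CL Pool.Agent.TH305.AX

/-- AXQ-T1. The constant `C₁` depends on `γ` only. -/
def StmT1Q : Prop := ∀ γ : ℝ, 0 < γ → γ ≤ 1 / 10 → ∃ C₁ : ℝ, 0 < C₁ ∧
  ∀ K c r h r1 h1 C₀ δ : ℝ, 0 ≤ K → 0 < r1 → r1 < r → r ≤ 1 → 0 < h1 → h1 < h → h ≤ 1 →
  0 ≤ C₀ → 0 < δ → δ ≤ 1 →
  ∃ C : ℝ, 0 ≤ C ∧ ∀ (P : ℝ) (v : V → V) (φ : V → ℝ), 0 < P → P ≤ 1 → ContDiff ℝ ∞ v →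
    Axi v → DFO (Co c r h) v → Cut c r h r1 h1 K φ → (∀ x ∈ Out c r h r1 h1, BdA K v x) →
    (∀ x ∈ Co c r h, |circ v x| ≤ C₀ ∧ (sg x ≤ P → |circ v x| ≤ δ)) →
      2 * |∫ x, wt γ x * φ x ^ 2 * JJ v x * SS v x|
        ≤ C₁ * δ * (GW γ (fun x => φ x * JJ v x) + PW γ (fun x => φ x * JJ v x)
          + GW γ (fun x => φ x * OO v x))
          + C / P * (1 + ∫ x, wt γ x * (φ x ^ 2 * OO v x ^ 2))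

/-- AXQ-T2. -/
def StmT2Q : Prop := ∀ γ : ℝ, 0 < γ → γ ≤ 1 / 10 →
  ∀ (K c r h r1 h1 C₀ δ P : ℝ) (v : V → V) (φ : V → ℝ), 0 ≤ C₀ → 0 ≤ δ → 0 < P →
    ContDiff ℝ ∞ v → Axi v → Cut c r h r1 h1 K φ →
    (∀ x ∈ Co c r h, |circ v x| ≤ C₀ ∧ (sg x ≤ P → |circ v x| ≤ δ)) →
      4 * |∫ x, wt γ x * φ x ^ 2 * OO v x * (WW v x * JJ v x)|
        ≤ 2 * δ * (PW γ (fun x => φ x * JJ v x) + PW γ (fun x => φ x * OO v x))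
          + 2 * C₀ / P * ((∫ x, wt γ x * (φ x ^ 2 * JJ v x ^ 2))
            + ∫ x, wt γ x * (φ x ^ 2 * OO v x ^ 2))

/-- AXQ-YD. The differential inequality; `dl μ c₂` is the smallness of the circulation, `gm μ c₂`
the exponent of the weight. -/
def StmYdQ (gm dl : ℝ → ℝ → ℝ) : Prop := ∀ μ c₂ : ℝ, 0 < μ → μ < 2 → 0 ≤ c₂ →
  0 < gm μ c₂ ∧ gm μ c₂ ≤ 1 / 10 ∧ gm μ c₂ * (8 * (c₂ + 1)) ≤ 1 ∧ 0 < dl μ c₂ ∧ dl μ c₂ ≤ 1 ∧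
  ∀ (T E c R H K r h r1 h1 T₁ C₀ θ : ℝ) (u : ℝ → V → V) (p : ℝ → V → ℝ) (B : ℝ → ℝ)
    (φ : V → ℝ), AxL T E c R H u p → 0 ≤ K → 0 < r1 → r1 < r → r < R → r ≤ 1 →
    0 < h1 → h1 < h → h < H → h ≤ 1 → 0 < T₁ → T₁ < T → T - T₁ ≤ 1 → 0 ≤ C₀ → 0 < θ →
    Cut c r h r1 h1 K φ → (∀ t ∈ Ico T₁ T, ∀ x ∈ Out c r h r1 h1, BdA K (u t) x) →
    (∀ t ∈ Ico T₁ T, ∀ x ∈ Co c r h, |circ (u t) x| ≤ C₀ ∧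
      (sg x ≤ (T - t) ^ θ → |circ (u t) x| ≤ dl μ c₂)) →
    (∀ t ∈ Ico T₁ T, ∀ x ∈ Co c r h, 0 < sg x → rad (u t) x ≤ 2 - μ + B t * sg x) →
      ∃ C : ℝ, 0 ≤ C ∧ ∀ t ∈ Ico T₁ T, ∃ D' : ℝ,
        HasDerivAt (fun s => (∫ x, wt (gm μ c₂) x * (φ x ^ 2 * JJ (u s) x ^ 2))
          + ∫ x, wt (gm μ c₂) x * (φ x ^ 2 * OO (u s) x ^ 2)) D' t ∧
        D' ≤ -GW (gm μ c₂) (fun x => φ x * OO (u t) x)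
          + (2 * gm μ c₂ * |B t| + C * (T - t) ^ (-θ))
            * ((∫ x, wt (gm μ c₂) x * (φ x ^ 2 * JJ (u t) x ^ 2))
              + ∫ x, wt (gm μ c₂) x * (φ x ^ 2 * OO (u t) x ^ 2)) + C * (T - t) ^ (-θ)

/-- AXQ-WB. The bounds at all times. -/
def StmWbQ (dl : ℝ → ℝ → ℝ) : Prop := ∀ μ c₂ : ℝ, 0 < μ → μ < 2 → 0 ≤ c₂ →
  ∀ (T E c R H K r h r1 h1 T₁ C₀ θ : ℝ) (u : ℝ → V → V) (p : ℝ → V → ℝ) (B : ℝ → ℝ)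
    (φ : V → ℝ), AxL T E c R H u p → 0 ≤ K → 0 < r1 → r1 < r → r < R → r ≤ 1 →
    0 < h1 → h1 < h → h < H → h ≤ 1 → 0 < T₁ → T₁ < T → T - T₁ ≤ 1 → 0 ≤ C₀ → 0 < θ → θ < 1 →
    Cut c r h r1 h1 K φ → ContinuousOn B (Ico T₁ T) → IntegrableOn B (Ico T₁ T) →
    (∀ t ∈ Ico T₁ T, ∀ x ∈ Out c r h r1 h1, BdA K (u t) x) →
    (∀ t ∈ Ico T₁ T, ∀ x ∈ Co c r h, |circ (u t) x| ≤ C₀ ∧
      (sg x ≤ (T - t) ^ θ → |circ (u t) x| ≤ dl μ c₂)) →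
    (∀ t ∈ Ico T₁ T, ∀ x ∈ Co c r h, 0 < sg x →
      rad (u t) x ≤ 2 - μ + (c₂ / (T - t) + B t) * sg x) →
      ∃ K' : ℝ, 0 ≤ K' ∧ ∀ t ∈ Ico T₁ T, (∀ x ∈ Cy c r1 h1, |WW (u t) x| ≤ K') ∧
        ∫ x in Cy c r1 h1, (UU (u t) x ^ 2 + sg x * (gr2 (UU (u t)) x + OO (u t) x ^ 2)) ≤ K'

/-- AXQ-LOG. The bound of the circulation. -/
def StmLogQ : Prop := ∀ (T E c R H r h T₁ K c₁ θ : ℝ) (u : ℝ → V → V) (p : ℝ → V → ℝ)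
  (B : ℝ → ℝ) (α α' δ : ℝ), AxL T E c R H u p → 0 < r → r < R → r < 1 → 0 < h → h < H →
  0 < T₁ → T₁ < T →
  (∀ t ∈ Ico T₁ T, ∀ x ∈ Cy c r h, (sg x = r ^ 2 ∨ |x 2 - c| = h) → |WW (u t) x| ≤ K) →
  ContinuousOn B (Ioo 0 T) → IntegrableOn B (Ioo 0 T) → 0 < α' → α' < α → 0 ≤ δ →
  0 ≤ c₁ → 2 * c₁ < θ →
  (∀ t ∈ Ioo T₁ T, ∀ x ∈ Co c r h, 0 < sg x → sg x < (T - t) ^ (2 * c₁) →
    δ < |circ (u t) x| → rad (vort (u t)) x = 0 → 0 < circ (u t) x * vort (u t) x 2 →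
    -2 + 2 * (α + 1) / lam T c₁ t x - (c₁ / (T - t) + B t) * sg x ≤ rad (u t) x) →
    ∃ C' C₀ : ℝ, 0 ≤ C' ∧ 0 ≤ C₀ ∧ ∀ t ∈ Ico T₁ T, ∀ x ∈ Cy c r h, |circ (u t) x| ≤ C₀ ∧
      (0 < sg x → sg x ≤ (T - t) ^ θ →
        |circ (u t) x| ≤ δ + C' * |Real.log (sg x)| ^ (-α'))

/-- AXQ-MAIN. -/
def StmMainQ (dl : ℝ → ℝ → ℝ) : Prop := ∀ (T E c R H T₀ c₁ c₂ : ℝ) (u : ℝ → V → V)
  (p : ℝ → V → ℝ) (B : ℝ → ℝ) (α μ : ℝ), 0 < T → 0 < R → 0 < H → AxL T E c R H u p → T₀ < T →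
  ContinuousOn B (Ioo 0 T) → IntegrableOn B (Ioo 0 T) → 0 < α → 0 < μ → μ < 2 → 0 ≤ c₁ →
  c₁ < 1 / 2 → 0 ≤ c₂ →
  (∀ t ∈ Ioo 0 T, T₀ < t → ∀ x ∈ Co c R H, 0 < sg x → sg x < 1 →
    rad (u t) x ≤ 2 - μ + (c₂ / (T - t) + B t) * sg x ∧
    (sg x < (T - t) ^ (2 * c₁) → dl μ c₂ / 2 < |circ (u t) x| → rad (vort (u t)) x = 0 →
      0 < circ (u t) x * vort (u t) x 2 →
      -2 + 2 * (α + 1) / lam T c₁ t x - (c₁ / (T - t) + B t) * sg x ≤ rad (u t) x)) →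
    Rg T u ![0, 0, c]

end Pool.Agent.Q67.AXI
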