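import Pool.Agent.Q67.AXI.All
import Pool.Agent.Q67.AXI.Defs4
import Pool.Agent.Q261.AXQ.MainQ
import Pool.Agent.Q261.AXQ.T1Q
import Pool.Agent.Q261.AXQ.T2Q
import Pool.Agent.Q261.AXQ.YdQ
import Pool.Agent.Q261.AXQ.WbQ
import Pool.Agent.Q177.AXI.LogQ
import Pool.Agent.Q174.AXW.EnW
import Pool.Agent.Q98.AXI.EllW
import Pool.Agent.Q98.AXI.SobW
import Pool.Agent.Q177.AXI.Uw
import Pool.Agent.Q234.AXW.DtW
import Pool.Agent.Q177.AXI.FinW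

/-!
Project AXI: the assembly (second theorem).
-/

set_option autoImplicit false

namespace Pool.Agent.Q67.AXI

theorem hEnW : StmEnW := Pool.Agent.Q174.AXW.t_EnW
theorem hEllW : StmEllW := Pool.Agent.Q98.AXI.ellW hAxF
theorem hSobW : StmSobW := Pool.Agent.Q98.AXI.sobW
theorem hUW : StmUW := Pool.Agent.Q177.AXI.uw hAlg hAxF hDiv hEllW hSobW
theorem hDtW : StmDtW := Pool.Agent.Q234.AXW.DtW.dtW
theorem hFinW : StmFinW := Pool.Agent.Q177.AXI.finW hAlg hAxF hDiv hJnt hCac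
theorem hT1Q : StmT1Q := Pool.Agent.Q261.AXQ.t1q hAlg hAxF hUW
theorem hT2Q : StmT2Q := Pool.Agent.Q261.AXQ.t2q hAlg
theorem hLogQ : StmLogQ := Pool.Agent.Q177.AXI.t_LogQ hAlg hJnt hBar

theorem hYdQ : ∃ gm dl : ℝ → ℝ → ℝ, StmYdQ gm dl :=
  Pool.Agent.Q261.AXQ.ydq hAlg hAxF hEqJ hEqO hJnt hEnW hT1Q hT2Q hDtW

/-- The constants do not depend on the solution. -/
theorem hMainQ : ∃ dl : ℝ → ℝ → ℝ, (∀ μ c₂ : ℝ, 0 < μ → μ < 2 → 0 ≤ c₂ → 0 < dl μ c₂) ∧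
    StmMainQ dl := by
  obtain ⟨gm, dl, h⟩ := hYdQ
  exact ⟨dl, fun μ c₂ h1 h2 h3 => (h μ c₂ h1 h2 h3).2.2.2.1,
    Pool.Agent.Q261.AXQ.mainq gm dl h (Pool.Agent.Q261.AXQ.wbq gm dl hAlg hJnt hUW hDtW hSm h)
      hGd hLogQ hCut hFinW hReg hAlg⟩

end Pool.Agent.Q67.AXI
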