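import Pool.Agent.Q67.AXI.Defs

/-!
Project AXI, second part (helper67): energy estimates with the weight `ρ ^ (2 γ)`, small swirl and
one-sided bounds of the radial velocity in both directions.
-/

set_option autoImplicit false

open MeasureTheory Set Metric Filter Topology
open scoped ContDiff
open H459R3.NS Pool.Agent.W268.NS Pool.Agent.Q67.VD

namespace Pool.Agent.Q67.AXI

open Pool.Agent.Q85.CC Pool.Agent.Q85.CL Pool.Agent.TH305.AX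

/-- The weight `ρ ^ (2 γ)`. -/
noncomputable def wt (γ : ℝ) (x : V) : ℝ := sg x ^ γ

/-- `∫ ρ ^ (2 γ) |∇ f|²`. -/
noncomputable def GW (γ : ℝ) (f : V → ℝ) : ℝ := ∫ x, wt γ x * gr2 f x

/-- `∫ ρ ^ (2 γ - 2) f²`. -/
noncomputable def PW (γ : ℝ) (f : V → ℝ) : ℝ := ∫ x, wt γ x * (f x ^ 2 / sg x)

/-! ### Fixed time -/

/-- AXW-EN. The energy identity with weight at one time. -/
def StmEnW : Prop := ∀ γ : ℝ, 0 < γ → γ < 1 → ∀ (O : Set V) (v : V → V) (f S φ : V → ℝ),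
  IsOpen O → ContDiff ℝ ∞ v → DFO O v → ContDiff ℝ ∞ f → ContDiff ℝ ∞ S → ContDiff ℝ ∞ φ →
  HasCompactSupport φ → tsupport φ ⊆ O →
    Integrable (fun x => wt γ x * (f x ^ 2 * φ x ^ 2 / sg x)) ∧
    Integrable (fun x => wt γ x * (rad v x / sg x) * (φ x * f x) ^ 2) ∧
    ∫ x, 2 * wt γ x * φ x ^ 2 * f x * (LL f x - W221.NS.adv v f x + S x)
      = -2 * GW γ (fun x => φ x * f x) - 4 * γ * (1 - γ) * PW γ (fun x => φ x * f x)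
        + 2 * γ * (∫ x, wt γ x * (rad v x / sg x) * (φ x * f x) ^ 2)
        + 2 * (∫ x, wt γ x * φ x ^ 2 * f x * S x)
        + ∫ x, wt γ x * f x ^ 2 * (2 * gr2 φ x + W221.NS.adv v (fun y => φ y ^ 2) x
          - (2 - 2 * γ) / sg x * RR (fun y => φ y ^ 2) x)

/-- AXW-ELL. -/
def StmEllW : Prop := ∀ γ : ℝ, 0 < γ → γ ≤ 1 / 2 → ∀ F : V → ℝ, ContDiff ℝ ∞ F →
  HasCompactSupport F → AxF F →
    Integrable (fun x => wt γ x * (gr2 F x / sg x)) ∧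
    (∫ x, wt γ x * hs2 F x) + 4 * γ * (1 - γ) * (∫ x, wt γ x * (gr2 F x / sg x))
      ≤ ∫ x, wt γ x * LL F x ^ 2 ∧
    GW γ F + 2 * γ * (1 - γ) * PW γ F = -∫ x, wt γ x * (F x * LL F x)

/-- AXW-SOB. -/
def StmSobW : Prop := ∀ γ : ℝ, 0 < γ → γ ≤ 1 / 10 → ∃ C : ℝ, 0 < C ∧ ∀ (F : V → ℝ) (a : V),
  ContDiff ℝ ∞ F → a 0 = 0 → a 1 = 0 → (∀ x, F x ≠ 0 → ‖x - a‖ ≤ 1) →
    ∀ x, F x ^ 2 ≤ C * ∫ y, wt γ y * hs2 F y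

/-- AXW-U. Bounds of `UU`; the constant `C₁` depends on `γ` only. -/
def StmUW : Prop := ∀ γ : ℝ, 0 < γ → γ ≤ 1 / 10 → ∃ C₁ : ℝ, 0 < C₁ ∧
  ∀ K c r h r1 h1 : ℝ, 0 ≤ K → 0 < r1 → r1 < r → r ≤ 1 → 0 < h1 → h1 < h → h ≤ 1 →
  ∃ C : ℝ, 0 ≤ C ∧ ∀ (v : V → V) (φ : V → ℝ), ContDiff ℝ ∞ v → Axi v →
    DFO (Co c r h) v → Cut c r h r1 h1 K φ → (∀ x ∈ Out c r h r1 h1, BdA K v x) →
      (∫ x, wt γ x * hs2 (fun y => φ y * UU v y) x)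
        + (∫ x, wt γ x * (gr2 (fun y => φ y * UU v y) x / sg x))
        ≤ C₁ * GW γ (fun x => φ x * OO v x) + C ∧
      GW γ (fun x => φ x * UU v x) + PW γ (fun x => φ x * UU v x)
        ≤ C * (1 + ∫ x, wt γ x * (φ x ^ 2 * OO v x ^ 2)) ∧
      ∀ x, (φ x * UU v x) ^ 2 ≤ C * (1 + GW γ (fun x => φ x * OO v x))

/-- AXW-T1. The constant `C₁` depends on `γ` only. -/
def StmT1W : Prop := ∀ γ : ℝ, 0 < γ → γ ≤ 1 / 10 → ∃ C₁ : ℝ, 0 < C₁ ∧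
  ∀ K c r h r1 h1 : ℝ, 0 ≤ K → 0 < r1 → r1 < r → r ≤ 1 → 0 < h1 → h1 < h → h ≤ 1 →
  ∃ C : ℝ, 0 ≤ C ∧ ∀ (δ : ℝ) (v : V → V) (φ : V → ℝ), 0 ≤ δ → δ ≤ 1 → ContDiff ℝ ∞ v →
    Axi v → DFO (Co c r h) v → Cut c r h r1 h1 K φ → (∀ x ∈ Out c r h r1 h1, BdA K v x) →
    (∀ x ∈ Co c r h, |circ v x| ≤ δ) →
      2 * |∫ x, wt γ x * φ x ^ 2 * JJ v x * SS v x|
        ≤ C₁ * δ * (GW γ (fun x => φ x * JJ v x) + PW γ (fun x => φ x * JJ v x)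
          + GW γ (fun x => φ x * OO v x)) + C

/-- AXW-T2. -/
def StmT2W : Prop := ∀ γ : ℝ, 0 < γ → γ ≤ 1 / 10 →
  ∀ (K c r h r1 h1 δ : ℝ) (v : V → V) (φ : V → ℝ), 0 ≤ δ → ContDiff ℝ ∞ v →
    Axi v → Cut c r h r1 h1 K φ → (∀ x ∈ Co c r h, |circ v x| ≤ δ) →
      4 * |∫ x, wt γ x * φ x ^ 2 * OO v x * (WW v x * JJ v x)|
        ≤ 2 * δ * (PW γ (fun x => φ x * JJ v x) + PW γ (fun x => φ x * OO v x))

/-! ### Estimates -/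

/-- AXW-DT. Derivative in time of the energy with weight, and continuity of the dissipation. -/
def StmDtW : Prop := ∀ (γ T : ℝ) (f : ℝ → V → ℝ) (φ : V → ℝ), 0 < γ →
  ContDiffOn ℝ ∞ (fun z : ℝ × V => f z.1 z.2) (Ioo 0 T ×ˢ univ) → ContDiff ℝ ∞ φ →
  HasCompactSupport φ →
    ContinuousOn (fun t => GW γ (fun x => φ x * f t x)) (Ioo 0 T) ∧
    ∀ t ∈ Ioo 0 T, HasDerivAt (fun s => ∫ x, wt γ x * (φ x ^ 2 * f s x ^ 2))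
      (∫ x, 2 * wt γ x * φ x ^ 2 * f t x * deriv (fun s => f s x) t) t

/-- AXW-YD. The differential inequality for small swirl and bounded outflow; `dl μ` is the
smallness of the circulation, `gm μ` the exponent of the weight. -/
def StmYdW (gm dl : ℝ → ℝ) : Prop := ∀ μ : ℝ, 0 < μ → μ < 2 → 0 < gm μ ∧ gm μ ≤ 1 / 10 ∧
  0 < dl μ ∧ dl μ ≤ 1 ∧
  ∀ (T E c R H K r h r1 h1 T₁ : ℝ) (u : ℝ → V → V) (p : ℝ → V → ℝ) (B : ℝ → ℝ)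
    (φ : V → ℝ), AxL T E c R H u p → 0 ≤ K → 0 < r1 → r1 < r → r < R → r ≤ 1 →
    0 < h1 → h1 < h → h < H → h ≤ 1 → 0 < T₁ → T₁ < T → Cut c r h r1 h1 K φ →
    (∀ t ∈ Ico T₁ T, ∀ x ∈ Out c r h r1 h1, BdA K (u t) x) →
    (∀ t ∈ Ico T₁ T, ∀ x ∈ Co c r h, |circ (u t) x| ≤ dl μ) →
    (∀ t ∈ Ico T₁ T, ∀ x ∈ Co c r h, 0 < sg x → rad (u t) x ≤ 2 - μ + B t * sg x) →
      ∃ C : ℝ, 0 ≤ C ∧ ∀ t ∈ Ico T₁ T, ∃ D' : ℝ,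
        HasDerivAt (fun s => (∫ x, wt (gm μ) x * (φ x ^ 2 * JJ (u s) x ^ 2))
          + ∫ x, wt (gm μ) x * (φ x ^ 2 * OO (u s) x ^ 2)) D' t ∧
        D' ≤ -GW (gm μ) (fun x => φ x * OO (u t) x)
          + |B t| * ((∫ x, wt (gm μ) x * (φ x ^ 2 * JJ (u t) x ^ 2))
            + ∫ x, wt (gm μ) x * (φ x ^ 2 * OO (u t) x ^ 2)) + C

/-- AXW-WB. The bounds at all times. -/
def StmWbW (dl : ℝ → ℝ) : Prop := ∀ μ : ℝ, 0 < μ → μ < 2 →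
  ∀ (T E c R H K r h r1 h1 T₁ : ℝ) (u : ℝ → V → V) (p : ℝ → V → ℝ) (B : ℝ → ℝ)
    (φ : V → ℝ), AxL T E c R H u p → 0 ≤ K → 0 < r1 → r1 < r → r < R → r ≤ 1 →
    0 < h1 → h1 < h → h < H → h ≤ 1 → 0 < T₁ → T₁ < T → Cut c r h r1 h1 K φ →
    ContinuousOn B (Ico T₁ T) → IntegrableOn B (Ico T₁ T) →
    (∀ t ∈ Ico T₁ T, ∀ x ∈ Out c r h r1 h1, BdA K (u t) x) →
    (∀ t ∈ Ico T₁ T, ∀ x ∈ Co c r h, |circ (u t) x| ≤ dl μ) →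
    (∀ t ∈ Ico T₁ T, ∀ x ∈ Co c r h, 0 < sg x → rad (u t) x ≤ 2 - μ + B t * sg x) →
      ∃ K' : ℝ, 0 ≤ K' ∧ ∀ t ∈ Ico T₁ T, (∀ x ∈ Cy c r1 h1, |WW (u t) x| ≤ K') ∧
        ∫ x in Cy c r1 h1, (UU (u t) x ^ 2 + sg x * (gr2 (UU (u t)) x + OO (u t) x ^ 2)) ≤ K'

/-- AXW-LOG. The bound of the circulation: a constant plus a logarithmic term. -/
def StmLogC : Prop := ∀ (T E c R H r h T₁ K : ℝ) (u : ℝ → V → V) (p : ℝ → V → ℝ) (B : ℝ → ℝ)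
  (α α' δ : ℝ), AxL T E c R H u p → 0 < r → r < R → r < 1 → 0 < h → h < H → 0 < T₁ → T₁ < T →
  (∀ t ∈ Ico T₁ T, ∀ x ∈ Cy c r h, (sg x = r ^ 2 ∨ |x 2 - c| = h) → |WW (u t) x| ≤ K) →
  ContinuousOn B (Ioo 0 T) → IntegrableOn B (Ioo 0 T) → 0 < α' → α' < α → 0 ≤ δ →
  (∀ t ∈ Ioo T₁ T, ∀ x ∈ Co c r h, 0 < sg x →
    δ < |circ (u t) x| → rad (vort (u t)) x = 0 → 0 < circ (u t) x * vort (u t) x 2 →
    -2 + 2 * (α + 1) / |Real.log (sg x)| - B t * sg x ≤ rad (u t) x) →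
    ∃ C' : ℝ, 0 ≤ C' ∧ ∀ t ∈ Ico T₁ T, ∀ x ∈ Cy c r h, 0 < sg x →
      |circ (u t) x| ≤ δ + C' * |Real.log (sg x)| ^ (-α')

/-- AXW-FIN. The scaled dissipation and the mollified velocity near the centre. -/
def StmFinW : Prop := ∀ (T E c R H r h T₁ K : ℝ) (u : ℝ → V → V) (p : ℝ → V → ℝ),
  AxL T E c R H u p → 0 < r → r < R → 0 < h → h < H → 0 < T₁ → T₁ < T → 0 ≤ K →
  (∀ t ∈ Ico T₁ T, (∀ x ∈ Cy c r h, |WW (u t) x| ≤ K) ∧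
    ∫ x in Cy c r h, (UU (u t) x ^ 2 + sg x * (gr2 (UU (u t)) x + OO (u t) x ^ 2)) ≤ K) →
    (∀ ε : ℝ, 0 < ε → Qt ε T u ![0, 0, c]) ∧ ∃ K₀ : ℝ, 0 ≤ K₀ ∧ Mo K₀ T u ![0, 0, c]

/-- AXW-MAIN. -/
def StmMainW (dl : ℝ → ℝ) : Prop := ∀ (T E c R H T₀ : ℝ) (u : ℝ → V → V) (p : ℝ → V → ℝ)
  (B : ℝ → ℝ) (α μ : ℝ), 0 < T → 0 < R → 0 < H → AxL T E c R H u p → T₀ < T →
  ContinuousOn B (Ioo 0 T) → IntegrableOn B (Ioo 0 T) → 0 < α → 0 < μ → μ < 2 →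
  (∀ t ∈ Ioo 0 T, T₀ < t → ∀ x ∈ Co c R H, 0 < sg x → sg x < 1 →
    rad (u t) x ≤ 2 - μ + B t * sg x ∧
    (dl μ / 2 < |circ (u t) x| → rad (vort (u t)) x = 0 →
      0 < circ (u t) x * vort (u t) x 2 →
      -2 + 2 * (α + 1) / |Real.log (sg x)| - B t * sg x ≤ rad (u t) x)) →
    Rg T u ![0, 0, c]

end Pool.Agent.Q67.AXI
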