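import Pool.Agent.Q67.AXI.Defs
import Pool.Agent.Q85.CL.FinD
import Pool.Agent.Q85.VL.Cor
import Pool.Agent.Q95.CL.Far
import Pool.Agent.Q285.CL.WSc

/-!
Project AXI: the theorem at the singular points, all viscosities.
-/

set_option autoImplicit false

open MeasureTheory Set Metric Filter Topology
open scoped ContDiff
open H459R3.NS Pool.Agent.W268.NS Pool.Agent.Q67.VD

namespace Pool.Agent.Q67.AXI

open Pool.Agent.Q85.CC Pool.Agent.Q85.CL Pool.Agent.TH305.AX

lemma circ_cm {v w : V → V} {c : ℝ} {x : V} (h : w x = c • v x) : circ w x = c * circ v x := by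
  unfold circ
  rw [h]
  show x 0 * (c * v x 1) - x 1 * (c * v x 0) = _
  ring

lemma rad_cm {v w : V → V} {c : ℝ} {x : V} (h : w x = c • v x) : rad w x = c * rad v x := by
  unfold rad
  rw [h]
  show x 0 * (c * v x 0) + x 1 * (c * v x 1) = _
  ring

lemma isOpen_Co (c r h : ℝ) : IsOpen (Co c r h) := by
  have h1 : Continuous fun x : V => sg x := by unfold sg; fun_prop
  have h2 : Continuous fun x : V => |x 2 - c| := by fun_prop
  exact (isOpen_lt h1 continuous_const).inter (isOpen_lt h2 continuous_const)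

lemma mem_Co_self {c r h : ℝ} (hr : 0 < r) (hh : 0 < h) : (![0, 0, c] : V) ∈ Co c r h := by
  refine ⟨?_, ?_⟩
  · show (0 : ℝ) ^ 2 + (0 : ℝ) ^ 2 < r ^ 2
    nlinarith
  · show |c - c| < h
    simpa using hh

lemma norm_Co {c r h : ℝ} (hr : 0 ≤ r) {x : V} (hx : x ∈ Co c r h) : ‖x - ![0, 0, c]‖ ≤ max r h := by
  obtain ⟨h1, h2⟩ := hx
  obtain ⟨a1, a2⟩ := abs_le_sqrt_sg x
  have h3 : √(sg x) ≤ r := by
    rw [← Real.sqrt_sq hr]
    exact Real.sqrt_le_sqrt h1.le
  rw [pi_norm_le_iff_of_nonneg (hr.trans (le_max_left _ _))]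
  intro i
  fin_cases i
  · show |x 0 - 0| ≤ _
    rw [sub_zero]
    exact (a1.trans h3).trans (le_max_left _ _)
  · show |x 1 - 0| ≤ _
    rw [sub_zero]
    exact (a2.trans h3).trans (le_max_left _ _)
  · exact h2.le.trans (le_max_right _ _)

/-- Back to the original solution. -/
lemma backA {ν T c r h : ℝ} {u v : ℝ → V → V} (hν : 0 < ν)
    (hv : ∀ t ∈ Ioo 0 T, ∀ x ∈ Co c r h, v (ν * t) x = ν⁻¹ • u t x) {y : V}
    (hy : y ∈ Co c r h) (hR : Rg (ν * T) v y) :
    ∃ B δ : ℝ, 0 < δ ∧ ∀ t ∈ Ioo 0 T, T - δ < t → ∀ x, ‖x - y‖ ≤ δ → ‖u t x‖ ≤ B := by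
  obtain ⟨B, δ, hδ, hB⟩ := hR
  obtain ⟨ρ, hρ, hρs⟩ := Metric.nhds_basis_closedBall.mem_iff.1 ((isOpen_Co c r h).mem_nhds hy)
  refine ⟨ν * B, min (min δ (δ / ν)) ρ, by positivity, fun t ht htδ x hx => ?_⟩
  have hmin1 : min (min δ (δ / ν)) ρ ≤ δ := (min_le_left _ _).trans (min_le_left _ _)
  have hmin2 : min (min δ (δ / ν)) ρ ≤ δ / ν := (min_le_left _ _).trans (min_le_right _ _)
  have hmin3 : min (min δ (δ / ν)) ρ ≤ ρ := min_le_right _ _
  have h3 : T - δ / ν < t := by linarith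
  have h4 : ν * T - δ < ν * t := by
    have := mul_lt_mul_of_pos_left h3 hν
    have e1 : ν * (T - δ / ν) = ν * T - δ := by field_simp
    linarith
  have h1 := hB (ν * t) ⟨h4, mul_lt_mul_of_pos_left ht.2 hν⟩ (mul_pos hν ht.1) x
    (hx.trans hmin1)
  rw [hv t ht x (hρs (by rw [mem_closedBall, dist_eq_norm]; exact hx.trans hmin3)), norm_smul,
    Real.norm_eq_abs, abs_of_pos (inv_pos.2 hν)] at h1
  calc ‖u t x‖ = ν * (ν⁻¹ * ‖u t x‖) := by field_simp
    _ ≤ ν * B := mul_le_mul_of_nonneg_left h1 hν.le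

/-- The solution `u`, viscosity `ν`, has near the point `a` of the axis and near the time `T`
points with non-negligible swirl, zero radial vorticity and strong inflow. -/
def Infl (ν T : ℝ) (u : ℝ → V → V) (a : V) : Prop :=
  ∀ (B : ℝ → ℝ) (α C T₀ R : ℝ), ContinuousOn B (Ioo 0 T) → IntegrableOn B (Ioo 0 T) →
    3 / 2 < α → 0 ≤ C → T₀ < T → 0 < R →
      ∃ t ∈ Ioo 0 T, T₀ < t ∧ ∃ x : V, ‖x - a‖ ≤ R ∧ 0 < sg x ∧ sg x < 1 ∧
        C * |Real.log (sg x)| ^ (-α) < |circ (u t) x| ∧ rad (vort (u t)) x = 0 ∧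
        0 < circ (u t) x * vort (u t) x 2 ∧
        rad (u t) x < ν * (-2 + 2 * (α + 1) / |Real.log (sg x)|) - B t * sg x

/-- The local theorem, all viscosities. -/
theorem infl_D (hM : StmMain) (hTr : StmTra) {ν T E : ℝ} {Ω : Set V} {u : ℝ → V → V}
    {p : ℝ → V → ℝ} (hν : 0 < ν) (h : DSl ν T E Ω u p)
    (hax : ∀ t ∈ Ioo 0 T, ∀ (θ : ℝ), ∀ x ∈ Ω, rot θ x ∈ Ω → u t (rot θ x) = rot θ (u t x))
    {a : V} (ha : a ∈ Ω) (ha0 : a 0 = 0) (ha1 : a 1 = 0) (hs : Sing T u a) : Infl ν T u a := by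
  have hT := hs.pos
  have hae : a = ![0, 0, a 2] := by
    funext i
    fin_cases i
    · exact ha0
    · exact ha1
    · rfl
  intro B α C T₀ R hBc hBi hα hC hT₀ hR
  by_contra hcon
  push Not at hcon
  obtain ⟨R', hR', hRR, hsub⟩ := small_ball h.openO ha hR
  rw [hae] at hsub
  obtain ⟨E', v, q, hL, hv⟩ := hTr ν T E Ω u p hν hT h hax (a 2) R' hR' hsub
  have hR2 : 0 < R' / 2 := by positivity
  have hνi : 0 < ν⁻¹ := inv_pos.2 hν
  have hmt : MapsTo (fun s : ℝ => s / ν) (Ioo 0 (ν * T)) (Ioo 0 T) := by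
    intro s hs
    exact ⟨div_pos hs.1 hν, by rw [div_lt_iff₀ hν, mul_comm]; exact hs.2⟩
  have hBc' : ContinuousOn (fun s => ν⁻¹ * B (s / ν)) (Ioo 0 (ν * T)) :=
    continuousOn_const.mul (hBc.comp (by fun_prop) hmt)
  have hBi' : IntegrableOn (fun s => ν⁻¹ * B (s / ν)) (Ioo 0 (ν * T)) := by
    have h1 : Integrable ((Ioo 0 T).indicator B) :=
      (integrable_indicator_iff measurableSet_Ioo).2 hBi
    have h2 := (h1.comp_div hν.ne').const_mul ν⁻¹
    rw [← integrable_indicator_iff measurableSet_Ioo]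
    refine h2.congr (Eventually.of_forall fun s => ?_)
    by_cases hs : s ∈ Ioo 0 (ν * T)
    · simp only [indicator_of_mem hs, indicator_of_mem (hmt hs)]
    · have hs' : s / ν ∉ Ioo 0 T := by
        intro hs'
        apply hs
        refine ⟨by have := mul_pos hs'.1 hν; rwa [div_mul_cancel₀ _ hν.ne'] at this, ?_⟩
        have := (div_lt_iff₀ hν).1 hs'.2
        rwa [mul_comm] at this
      simp only [indicator_of_notMem hs, indicator_of_notMem hs', mul_zero]
  have hreg := hM (ν * T) E' (a 2) (R' / 2) (R' / 2) (ν * T₀) v q (fun s => ν⁻¹ * B (s / ν)) α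
    (ν⁻¹ * C) (mul_pos hν hT) hR2 hR2 hL (mul_lt_mul_of_pos_left hT₀ hν) hBc' hBi' hα
    (by positivity) (by
      intro t' ht' hT0t' x hx hsx hsx1 hc hr hcv
      have ht := hmt ht'
      have htν : ν * (t' / ν) = t' := by field_simp
      have hT0 : T₀ < t' / ν := by
        rw [lt_div_iff₀ hν, mul_comm]
        exact hT0t'
      have hvx : v t' x = ν⁻¹ • u (t' / ν) x := by
        rw [← hv _ ht x hx, htν]
      have hev : ∀ᶠ y in 𝓝 x, v t' y = ν⁻¹ • u (t' / ν) y := by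
        filter_upwards [(isOpen_Co _ _ _).mem_nhds hx] with y hy
        rw [← hv _ ht y hy, htν]
      have hvo := vort_evD hev
      rw [circ_cm hvx] at hc hcv
      rw [rad_cm hvo] at hr
      rw [hvo] at hcv
      rw [rad_cm hvx]
      have h1 := hcon (t' / ν) ht hT0 x (by
        rw [hae]
        refine (norm_Co hR2.le hx).trans ?_
        rw [max_self]
        linarith) hsx hsx1 (by
        rw [abs_mul, abs_of_pos hνi, mul_assoc] at hc
        exact lt_of_mul_lt_mul_left hc hνi.le) (by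
        rcases mul_eq_zero.1 hr with h2 | h2
        · exact absurd h2 hνi.ne'
        · exact h2) (by
        have h2 : ν⁻¹ * circ (u (t' / ν)) x * (ν⁻¹ • vort (u (t' / ν)) x) 2
            = ν⁻¹ ^ 2 * (circ (u (t' / ν)) x * vort (u (t' / ν)) x 2) := by
          rw [Pi.smul_apply, smul_eq_mul]
          ring
        rw [h2] at hcv
        exact (mul_pos_iff_of_pos_left (by positivity)).1 hcv)
      have h3 := mul_le_mul_of_nonneg_left h1 hνi.le
      have h4 : ν⁻¹ * (ν * (-2 + 2 * (α + 1) / |Real.log (sg x)|) - B (t' / ν) * sg x)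
          = -2 + 2 * (α + 1) / |Real.log (sg x)| - ν⁻¹ * B (t' / ν) * sg x := by
        field_simp
      linarith)
  have hb := backA hν hv (mem_Co_self hR2 hR2) hreg
  rw [← hae] at hb
  exact hs.not_bdd hb

/-- In the whole space the singular points are on the axis. -/
theorem axis_W (hTr : StmTra) (hW : StmWho) (hG : StmGR) {ν T E : ℝ} {u : ℝ → V → V}
    {p : ℝ → V → ℝ} (hν : 0 < ν) (h : WSl ν T E u p) (hax : ∀ t ∈ Ioo 0 T, Axi (u t)) {a : V}
    (hs : Sing T u a) : a 0 = 0 ∧ a 1 = 0 := by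
  have hT := hs.pos
  by_contra hcon
  have hsg : 0 < sg a := by
    have h0 : 0 ≤ sg a := sg_nonneg a
    rcases h0.lt_or_eq with h1 | h1
    · exact h1
    · exfalso
      apply hcon
      unfold sg at h1
      constructor <;> nlinarith [sq_nonneg (a 0), sq_nonneg (a 1)]
  obtain ⟨R, hR, hRa⟩ : ∃ R : ℝ, 0 < R ∧ sg a < (R / 2) ^ 2 :=
    ⟨2 * (sg a + 1), by positivity, by nlinarith⟩
  have hD := hW ν T E u p hν hT h (‖(![0, 0, a 2] : V)‖ + R + 1)
  obtain ⟨E', v, q, hL, hv⟩ := hTr ν T E _ u p hν hT hD (fun t ht θ x _ _ => hax t ht θ x) (a 2) R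
    hR (by
      intro x hx
      rw [mem_closedBall, dist_eq_norm] at hx
      rw [mem_ball, dist_zero_right]
      have := norm_le_norm_add_norm_sub' x ![0, 0, a 2]
      linarith)
  have hmem : a ∈ Co (a 2) (R / 2) (R / 2) := ⟨hRa, by simpa using hR⟩
  have hg := (hG (ν * T) E' (a 2) (R / 2) (R / 2) v q (mul_pos hν hT) (by positivity) hL).1 a
    hmem hsg
  exact hs.not_bdd (backA hν hv hmem hg)

end Pool.Agent.Q67.AXI
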